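import Mathlib
import Pool.Agent.SCW.Master
import Pool.Agent.SCW.Final

set_option autoImplicit false

/-!
Asymptotic form of the question of Edelman: up to a proportion `O(n^(-1/5))` of the permutations,
the weak order on the permutations of `n` elements is a disjoint union of symmetric saturated chains.
The conditions on the chains are those of the frozen statement of the problem.
-/

namespace Pool.Agent.Results.MP_6a811c_co.AsymptoticSCD

/-- There is a constant `A` such that for every `n ≥ 1` there are pairwise disjoint symmetric saturated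
chains of the weak order on the permutations of `Fin n` (each step is an adjacent swap raising the
number of inversions by one, the ranks of the two ends add up to `n(n-1)/2`) such that at most
`A * n! / n^(1/5)` permutations lie in none of them. -/
theorem result :
    ∃ A : ℝ, ∀ n : ℕ, 1 ≤ n → ∃ (k : ℕ) (C : Fin k → List (Equiv.Perm (Fin n))),
      (∀ i j : Fin k, i ≠ j → ∀ σ : Equiv.Perm (Fin n), σ ∈ C i → σ ∉ C j) ∧
      (∀ i : Fin k, (C i).Nodup) ∧
      (∀ i : Fin k, ∀ j : ℕ, ∀ a b : Equiv.Perm (Fin n),
        (C i)[j]? = some a → (C i)[j + 1]? = some b →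
          ∃ x y : Fin n, x.val + 1 = y.val ∧ b = a * Equiv.swap x y ∧
            (Finset.univ.filter (fun p : Fin n × Fin n => p.1 < p.2 ∧ b p.2 < b p.1)).card
              = (Finset.univ.filter (fun p : Fin n × Fin n => p.1 < p.2 ∧ a p.2 < a p.1)).card + 1) ∧
      (∀ i : Fin k, ∃ a b : Equiv.Perm (Fin n),
        (C i).head? = some a ∧ (C i).getLast? = some b ∧
          (Finset.univ.filter (fun p : Fin n × Fin n => p.1 < p.2 ∧ a p.2 < a p.1)).card
            + (Finset.univ.filter (fun p : Fin n × Fin n => p.1 < p.2 ∧ b p.2 < b p.1)).card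
            = n * (n - 1) / 2) ∧
      ((Finset.univ.filter (fun σ : Equiv.Perm (Fin n) => ∀ i : Fin k, σ ∉ C i)).card : ℝ)
        ≤ A * (n.factorial : ℝ) / (n : ℝ) ^ ((1 : ℝ) / 5) := by
  obtain ⟨A, hA⟩ := Pool.Agent.SCW.final
  refine ⟨A, fun n hn => ?_⟩
  obtain ⟨k, C, h1, h2, h3, h4, h5⟩ := hA n hn
  refine ⟨k, C, h1, h2, ?_, h4, ?_⟩
  · intro i j a b ha hb
    exact h3 i j a b ha hb
  · have h6 : (Finset.univ.filter (fun σ : Equiv.Perm (Fin n) => ∃ i, σ ∈ C i)).card
        + (Finset.univ.filter (fun σ : Equiv.Perm (Fin n) => ∀ i : Fin k, σ ∉ C i)).card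
        = n.factorial := by
      have h7 := Finset.card_filter_add_card_filter_not (s := (Finset.univ : Finset (Equiv.Perm (Fin n))))
        (fun σ : Equiv.Perm (Fin n) => ∃ i, σ ∈ C i)
      rw [Finset.card_univ, Fintype.card_perm, Fintype.card_fin] at h7
      rw [← h7]
      congr 2
      apply Finset.filter_congr
      intro σ _
      simp
    have h8 : ((Finset.univ.filter (fun σ : Equiv.Perm (Fin n) => ∃ i, σ ∈ C i)).card : ℝ)
        + ((Finset.univ.filter (fun σ : Equiv.Perm (Fin n) => ∀ i : Fin k, σ ∉ C i)).card : ℝ)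
        = (n.factorial : ℝ) := by exact_mod_cast h6
    have h9 : A * (n.factorial : ℝ) / (n : ℝ) ^ ((1 : ℝ) / 5)
        = (n.factorial : ℝ) * (A / (n : ℝ) ^ ((1 : ℝ) / 5)) := by ring
    rw [h9]
    linarith

end Pool.Agent.Results.MP_6a811c_co.AsymptoticSCD
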